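import Pool.Agent.Lib.H54L.G3
import Pool.Agent.Lib.H54W.W2B

set_option autoImplicit false

/-!
H54L: families of hypersurfaces containing the Fermat hypersurface; the comparison of H44K for such a family.
-/

open MvPolynomial

namespace Pool.Agent.H54L

open Pool.Agent.H89T Pool.Agent.H67T Pool.Agent.H53U Pool.Agent.H53V Pool.Agent.H44K

variable {n k d : ℕ}

theorem g4_Fx : H80W.Fx n 1 (fun _ => d) (fun _ _ => 1) 0 = Fx0 n d := by
  unfold H80W.Fx Fx0
  rw [Fintype.sum_option, Fin.sum_univ_castSucc]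
  have h1 : H80W.vc n 1 0 = some (Fin.last n) := rfl
  have h2 : H80W.vb n 1 none = none := rfl
  have h3 : ∀ i : Fin n, H80W.vb n 1 (some i) = some i.castSucc := fun i => rfl
  rw [h1, h2]
  simp only [h3, C_1, one_mul]
  ring

/-- `x_0` is not a zero divisor modulo the Fermat form. -/
theorem g4_reg (hd : 1 ≤ d) {x : MvPolynomial (Option (Fin (n + 1))) ℂ}
    (hx : X none * x ∈ Ideal.span {Fx0 n d}) : x ∈ Ideal.span {Fx0 n d} := by
  have h1 : Set.range (H80W.Fx n 1 (fun _ => d) (fun _ _ => 1)) = {Fx0 n d} := by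
    ext y
    constructor
    · rintro ⟨j, rfl⟩
      rw [Subsingleton.elim j 0, g4_Fx]
      rfl
    · intro hy
      exact ⟨0, by rw [g4_Fx, Set.mem_singleton_iff.1 hy]⟩
  rw [← h1] at hx ⊢
  exact H54W.X_reg (n := n) (c := 1) (d := fun _ => d) (α := fun _ _ => 1) (fun _ => hd)
    (fun _ => one_ne_zero) none hx

/-- `x_0` is regular up to torsion modulo the special ideal. -/
theorem TR_x0s (hd : 1 ≤ d) : TR (Isp n k d) (X (xv none)) := by
  intro f hf b'
  have hS : (fun p : ↥(Finset.univ : Finset (Fin 1)) × Fin k =>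
      ((p.1.1, p.2) : Fin 1 × Fin k)) '' Set.univ =
        {q : Fin 1 × Fin k | q.1 ∈ (Finset.univ : Finset (Fin 1))} := by
    ext ⟨j, i⟩
    constructor
    · intro _
      exact Finset.mem_univ j
    · intro h
      exact ⟨(⟨j, Finset.mem_univ j⟩, i), Set.mem_univ _, rfl⟩
  have hmap := g5_map (n := n) (d := d) {q : Fin 1 × Fin k | q.1 ∈ (Finset.univ : Finset (Fin 1))}
    Set.univ hS
  rw [Set.image_univ] at hmap
  have h1 := Ideal.mem_map_of_mem (er8_s (n + 1) k ℂ) hf
  unfold Isp at h1 ⊢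
  rw [hmap, map_mul, er8_s_apply (X (xv none)), spl_xv] at h1
  have hIF : C (Fx0 n d) ∈ Ideal.span (C '' ((Ideal.span {Fx0 n d} :
        Ideal (MvPolynomial (Option (Fin (n + 1))) ℂ)) : Set _) ∪ Set.range (g5_u n k d)) :=
    Ideal.subset_span (Or.inl ⟨_, Ideal.mem_span_singleton_self _, rfl⟩)
  obtain ⟨r, hr⟩ := g5_comb hd _ hIF (er8_s (n + 1) k ℂ f) (fun c => by
    obtain ⟨e, he⟩ := L4 (Ideal.span {Fx0 n d}) Finset.univ
      (fun _ b => C (d : ℂ) * X (some b) ^ (d - 1)) (g5_u n k d) g5_lev (fun _ => c)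
      (δ := C (d : ℂ) * X (some c) ^ (d - 1)) (by rw [g5_det])
      (g := X none) (fun x hx => ⟨0, by
        rw [pow_zero, one_mul]
        exact g4_reg hd hx⟩) h1
    exact ⟨e, he⟩) b'
  refine ⟨r, ?_⟩
  rw [← er8_mem, hmap, map_mul, map_pow, er8_s_apply (X (xv b')), spl_xv]
  exact hr

section Fam

variable {R : Type} [CommRing R]

/-- The generators of the family. -/
noncomputable def gfa (k : ℕ) (a : CI (n + 1) (fun _ : Fin 1 => d) → R) :
    Fin 1 ⊕ Fin 1 × Fin k → MvPolynomial (HV (n + 1) k) R :=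
  Sum.elim (FhK k a) (UhK k a)

theorem gfa_bi (a : CI (n + 1) (fun _ : Fin 1 => d) → R) (t : Fin 1 ⊕ Fin 1 × Fin k) :
    BiH (dge k d t).1 (dge k d t).2 (gfa k a t) := by
  rcases t with j | q
  · exact FhK_bi a j
  · exact UhK_bi a q

theorem gfa_ev (a : CI (n + 1) (fun _ : Fin 1 => d) → R) (ev : R →+* ℂ)
    (hev : ∀ p, ev (a p) = aF n d p) (t : Fin 1 ⊕ Fin 1 × Fin k) (μ : HV (n + 1) k →₀ ℕ) :
    ev (coeff μ (gfa k a t)) = eval (aF n d) (coeff μ (gge n k d t)) := by
  have h1 : (fun p => ev (a p)) = aF n d := funext hev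
  have h2 : (fun p => eval (aF n d) (gc (n + 1) (fun _ : Fin 1 => d) p)) = aF n d := by
    funext p
    unfold gc
    rw [eval_X]
  rw [← coeff_map, ← coeff_map]
  rcases t with j | q
  · show coeff μ (map ev (FhK k a j)) =
      coeff μ (map (eval (aF n d)) (FhK k (gc (n + 1) (fun _ : Fin 1 => d)) j))
    rw [FhK_map, FhK_map, h1, h2]
  · show coeff μ (map ev (UhK k a q)) =
      coeff μ (map (eval (aF n d)) (UhK k (gc (n + 1) (fun _ : Fin 1 => d)) q))
    rw [UhK_map, UhK_map, h1, h2]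

theorem gfa_low (hd : 1 ≤ d) (a : CI (n + 1) (fun _ : Fin 1 => d) → R) (ev : R →+* ℂ)
    (hev : ∀ p, ev (a p) = aF n d p) (t : Fin 1 ⊕ Fin 1 × Fin k) (μ : HV (n + 1) k →₀ ℕ)
    (h : vd μ < kge k t) : ev (coeff μ (gfa k a t)) = 0 := by
  rw [gfa_ev a ev hev]
  exact g18_low hd t μ h

theorem gfa_eq (hd : 1 ≤ d) (a : CI (n + 1) (fun _ : Fin 1 => d) → R) (ev : R →+* ℂ)
    (hev : ∀ p, ev (a p) = aF n d p) (t : Fin 1 ⊕ Fin 1 × Fin k) (μ : HV (n + 1) k →₀ ℕ) :
    coeff μ (gsp n k d t) = if vd μ = kge k t then ev (coeff μ (gfa k a t)) else 0 := by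
  rw [gfa_ev a ev hev]
  exact g18_eq hd t μ

variable [IsDomain R] {K : Type} [Field K] [Algebra R K]

/-- The ideal of the family over the field. -/
noncomputable def Ifa (k : ℕ) (a : CI (n + 1) (fun _ : Fin 1 => d) → K) :
    Ideal (MvPolynomial (HV (n + 1) k) K) :=
  Ideal.span (Set.range (FhK k a) ∪ UhK k a '' {q | q.1 ∈ (Finset.univ : Finset (Fin 1))})

theorem span_gfa (a : CI (n + 1) (fun _ : Fin 1 => d) → R) :
    Ideal.span (Set.range fun t => map (algebraMap R K) (gfa k a t)) =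
      Ifa k (fun p => algebraMap R K (a p)) := by
  have h1 : (fun t => map (algebraMap R K) (gfa k a t)) =
      Sum.elim (FhK k fun p => algebraMap R K (a p)) (UhK k fun p => algebraMap R K (a p)) := by
    funext t
    rcases t with j | q
    · exact FhK_map _ a j
    · exact UhK_map _ a q
  rw [h1, Set.Sum.elim_range]
  unfold Ifa
  rw [g18_univ k, Set.image_univ]

theorem hf_fam [IsFractionRing R K] (hd : 1 ≤ d) (a : CI (n + 1) (fun _ : Fin 1 => d) → R)
    (ev : R →+* ℂ) (hev : ∀ p, ev (a p) = aF n d p) (k : ℕ) :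
    ∃ A₁ : ℕ, ∀ A ≥ A₁, ∀ m,
      hf (Ideal.span (Set.range fun t => map (algebraMap R K) (gfa k a t))) A m =
        hf (Ideal.span (Set.range (gsp n k d))) A m := by
  classical
  have key : ∀ Q : Finset (Fin 1 × Fin k), ∃ A₁ : ℕ, ∀ A ≥ A₁, ∀ m,
      hf (Ideal.span ((fun t => map (algebraMap R K) (gfa k a t)) ''
          ({Sum.inl 0} ∪ Sum.inr '' (Q : Set (Fin 1 × Fin k))))) A m =
        hf (Ideal.span (gsp n k d '' ({Sum.inl 0} ∪ Sum.inr '' (Q : Set (Fin 1 × Fin k))))) A m := by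
    intro Q
    induction Q using Finset.induction_on with
    | empty =>
      have h1 : (({Sum.inl 0} : Set (Fin 1 ⊕ Fin 1 × Fin k)) ∪
          Sum.inr '' ((∅ : Finset (Fin 1 × Fin k)) : Set (Fin 1 × Fin k))) =
          insert (Sum.inl 0) ∅ := by
        rw [Finset.coe_empty, Set.image_empty, Set.union_empty]
        exact (insert_empty_eq (Sum.inl 0)).symm
      rw [h1]
      refine stage (K := K) ev (gfa k a) (gsp n k d) (dge k d) (kge k) (gfa_bi a)
        (gfa_low hd a ev hev) (gfa_eq hd a ev hev) ∅ (Sum.inl 0) ?_ ⟨0, fun A _ m => ?_⟩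
      · rw [Set.image_empty]
        have h2 := TR_F0s (n := n) (k := k) hd (0 : Fin 1)
        have h3 : {i : Fin 1 | i < 0} = ∅ := by
          ext i
          constructor
          · intro h
            have h' : i < 0 := h
            rw [Subsingleton.elim i 0] at h'
            exact absurd h' (lt_irrefl _)
          · intro h
            exact absurd h (Set.notMem_empty _)
        rw [h3, Set.image_empty] at h2
        exact h2
      · rw [Set.image_empty, Set.image_empty, Ideal.span_empty, Ideal.span_empty, ehd_hf_bot,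
          ehd_hf_bot]
    | insert q Q hq ih =>
      have h1 : (({Sum.inl 0} : Set (Fin 1 ⊕ Fin 1 × Fin k)) ∪
          Sum.inr '' ((insert q Q : Finset (Fin 1 × Fin k)) : Set (Fin 1 × Fin k))) =
          insert (Sum.inr q) ({Sum.inl 0} ∪ Sum.inr '' (Q : Set (Fin 1 × Fin k))) := by
        rw [Finset.coe_insert, Set.image_insert_eq]
        ext t
        simp only [Set.mem_union, Set.mem_insert_iff]
        tauto
      rw [h1]
      refine stage (K := K) ev (gfa k a) (gsp n k d) (dge k d) (kge k) (gfa_bi a)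
        (gfa_low hd a ev hev) (gfa_eq hd a ev hev) _ (Sum.inr q) ?_ ih
      have h2 := TR_U0s (n := n) (k := k) hd Q q hq
      have h3 : gsp n k d '' ({Sum.inl 0} ∪ Sum.inr '' (Q : Set (Fin 1 × Fin k))) =
          Set.range (F0s n k d) ∪ U0s n k d '' (Q : Set (Fin 1 × Fin k)) := by
        rw [Set.image_union, Set.image_singleton, Set.image_image]
        congr 1
        ext y
        constructor
        · intro hy
          exact ⟨0, (Set.mem_singleton_iff.1 hy).symm⟩
        · rintro ⟨j, rfl⟩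
          rw [Subsingleton.elim j 0]
          rfl
      rw [h3]
      exact h2
  obtain ⟨A₁, hA₁⟩ := key Finset.univ
  refine ⟨A₁, fun A hA m => ?_⟩
  have h := hA₁ A hA m
  have h1 : (({Sum.inl 0} : Set (Fin 1 ⊕ Fin 1 × Fin k)) ∪
      Sum.inr '' ((Finset.univ : Finset (Fin 1 × Fin k)) : Set (Fin 1 × Fin k))) = Set.univ := by
    ext t
    constructor
    · intro _
      exact Set.mem_univ t
    · intro _
      rcases t with j | q
      · left
        rw [Subsingleton.elim j 0]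
        rfl
      · right
        exact ⟨q, Finset.mem_coe.2 (Finset.mem_univ q), rfl⟩
  rw [h1, Set.image_univ, Set.image_univ] at h
  exact h

theorem TR_x0_fam [IsFractionRing R K] (hd : 1 ≤ d) (a : CI (n + 1) (fun _ : Fin 1 => d) → R)
    (ev : R →+* ℂ) (hev : ∀ p, ev (a p) = aF n d p) :
    TR (Ifa k (fun p => algebraMap R K (a p))) (X none) := by
  have h := TR_transfer (K := K) ev (gfa k a) (gsp n k d) (dge k d) (kge k) (gfa_bi a)
    (gfa_low hd a ev hev) (gfa_eq hd a ev hev) (hf_fam hd a ev hev k) none (by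
      rw [span_gsp]
      exact TR_x0s hd)
  rw [span_gfa] at h
  exact h

theorem HomI_fam (a : CI (n + 1) (fun _ : Fin 1 => d) → K) : HomI (Ifa k a) :=
  HomI_hom Finset.univ a

theorem kap_ineq_fam [IsFractionRing R K] (hd : 1 ≤ d) (a : CI (n + 1) (fun _ : Fin 1 => d) → R)
    (ev : R →+* ℂ) (hev : ∀ p, ev (a p) = aF n d p)
    {A₀ : ℕ} (hE1 : ∀ c ≥ A₀, E1 (Ik n k d) c (sde n d))
    (hE2 : ∀ c ≥ A₀, ∀ s, 1 ≤ s → E2 (Ik n k d) c (fun _ => s)) :
    ∃ A₁ : ℕ, ∀ A ≥ A₁, ∀ m s t, 1 ≤ s → s ≤ (d - 1) * t →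
      Module.finrank ℂ (kap (c1 (n + 1) k s) (Isp n k d) A m) ≤
        Module.finrank K (kap (c1 (n + 1) k s) (Ifa k (fun p => algebraMap R K (a p))) A m) +
          (n + 2) ^ 2 * Module.finrank ℂ (BG n k d t (A + s) m) := by
  obtain ⟨A₁, hA₁⟩ := hf_fam (K := K) hd a ev hev k
  obtain ⟨A₂, hA₂⟩ := Ik_large n k hd
  refine ⟨max A₀ (max A₁ A₂), fun A hA m s t hs hst => ?_⟩
  have hA0 : A₀ ≤ A := (le_max_left _ _).trans hA
  have hA1 : A₁ ≤ A := ((le_max_left _ _).trans (le_max_right _ _)).trans hA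
  have hA2 : A₂ ≤ A := ((le_max_right _ _).trans (le_max_right _ _)).trans hA
  have m4 := kap2_sp hA₂ hA2 s m
  have m5 := finrank_Zc hd hE1 (hE2 · · s hs) hA0 hst m
  have h := kap_gen (K := K) ev (gfa k a) (gsp n k d) (dge k d) (kge k) (gfa_bi a)
    (gfa_low hd a ev hev) (gfa_eq hd a ev hev) (A := A) (s := s) (m := m)
    (hA₁ (A + s) (by omega) m) (hA₁ (A + s + s) (by omega) m)
    (B := (n + 2) ^ 2 * Module.finrank ℂ (BG n k d t (A + s) m)) (by
      rw [span_gsp]
      omega)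
  rw [span_gsp, span_gfa] at h
  exact h

end Fam

end Pool.Agent.H54L
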