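import Pool.Agent.Lib.H54L.G2
import Pool.Agent.Lib.H54L.G4
import Pool.Agent.Lib.H44K.GMain
import Pool.Agent.Lib.H53L.D0

set_option autoImplicit false

/-!
H54L: the existence theorem for a family of hypersurfaces containing the Fermat hypersurface, and for the cyclic family.
-/

open MvPolynomial

namespace Pool.Agent.H54L

open Pool.Agent.H89T Pool.Agent.H67T Pool.Agent.H53U Pool.Agent.H53V Pool.Agent.H44K

section Fam

variable {n k d : ℕ} {R : Type} [CommRing R] [IsDomain R] {K : Type} [Field K] [Algebra R K]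
  [IsFractionRing R K]

/-- MAIN THEOREM of the algebra for a family. -/
theorem dim_fam (hn : 1 ≤ n) (hk : n ≤ k) (hd : 2 ≤ d) (a : CI (n + 1) (fun _ : Fin 1 => d) → R)
    (ev : R →+* ℂ) (hev : ∀ p, ev (a p) = aF n d p) :
    ∃ A₀ : ℕ, ∀ A ≥ A₀, ∀ m s t t' R', 1 ≤ s → s ≤ (d - 1) * t →
      s + (n + 2) * (d - 1) ≤ (d - 1) * t' →
      R' + (n + 2) ^ 2 * (nbad n k m t * (d * (A + s + (d - 1) * m + n).choose n)) ≤
        d * (d - 1) ^ n * ngoodS n k m t' →
      ∀ l : Fin (n + 1) → K, ∃ P Q : Fin R' → MvPolynomial (JV (n + 1) k) K,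
        (∀ i, BiK A m (P i)) ∧ (∀ i, BiK A m (Q i)) ∧
        (∀ i, linK k l ^ s * P i - Q i ∈
          IK k Finset.univ (fun p => algebraMap R K (a p))) ∧
        ∀ w : Fin R' → K, ∑ i, C (w i) * P i ∈
          IK k Finset.univ (fun p => algebraMap R K (a p)) → w = 0 := by
  have hd1 : 1 ≤ d := by omega
  obtain ⟨A₀, hA₀⟩ := exists_E12 (Ik_hom (n := n) (k := k) hd1)
  have hE1 : ∀ c ≥ A₀, E1 (Ik n k d) c (sde n d) := by
    intro c hc
    refine (hA₀ c hc (sde n d) ?_).1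
    intro b
    rcases b with _ | b
    · exact hd1
    · show 1 ≤ d - 1
      omega
  have hE2 : ∀ c ≥ A₀, ∀ s, 1 ≤ s → E2 (Ik n k d) c (fun _ => s) := fun c hc s hs =>
    (hA₀ c hc (fun _ => s) fun _ => hs).2
  obtain ⟨A₁, hA₁⟩ := kap_ineq_fam (K := K) hd1 a ev hev hE1 hE2
  obtain ⟨A₂, hA₂⟩ := dim_of_kap (HomI_fam (k := k) fun p => algebraMap R K (a p))
    (TR_x0_fam (K := K) (k := k) hd1 a ev hev)
  obtain ⟨A₃, hA₃⟩ := hf_fam (K := K) hd1 a ev hev k
  obtain ⟨A₄, hA₄⟩ := Ik_large n k hd1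
  refine ⟨A₀ + A₁ + A₂ + A₃ + A₄, fun A hA m s t t' R' hs hst ht' hR l => ?_⟩
  have hIK : (Ifa k fun p => algebraMap R K (a p)).map
      (dhom : _ →ₐ[K] MvPolynomial (JV (n + 1) k) K) =
      IK k Finset.univ (fun p => algebraMap R K (a p)) :=
    map_dhom_ideal Finset.univ fun p => algebraMap R K (a p)
  rw [← hIK]
  refine hA₂ A (by omega) m s R' hs ?_ l
  have h1 := kap1_sp hA₄ (by omega : A₄ ≤ A) s m
  have h2 := hA₁ A (by omega) m s t hs hst
  have h3 := finrank_piece (hA₃ A (by omega) m)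
  rw [span_gfa, span_gsp] at h3
  have h4 := finrank_BG (n := n) (k := k) hd1 t (A + s) m
  have h5 := QQ_lower hn hk hd (A := A) (s := s) (m := m) ht' (fun m' f hf J =>
    satt hd1 hE1 (by omega : A₀ ≤ A) (fun i => (J i).1) hf)
  rw [h3]
  have h6 : (n + 2) ^ 2 * Module.finrank ℂ (BG n k d t (A + s) m) ≤
      (n + 2) ^ 2 * (nbad n k m t * (d * (A + s + (d - 1) * m + n).choose n)) :=
    Nat.mul_le_mul_left _ h4
  have h7 : (n + 1 + 1) * Module.finrank ℂ ↥((Isp n k d).restrictScalars ℂ ⊓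
        weightedHomogeneousSubmodule ℂ (hw : HV (n + 1) k → ℕ × ℕ) (A, m)) =
      (n + 2) * Module.finrank ℂ ↥((Isp n k d).restrictScalars ℂ ⊓
        weightedHomogeneousSubmodule ℂ (hw : HV (n + 1) k → ℕ × ℕ) (A, m)) := rfl
  rw [h7]
  omega

end Fam

section Cyc

open Pool.Agent.H53L

variable {n d : ℕ}

theorem cyP_map {B B' : Type*} [CommRing B] [CommRing B'] (φ : B →+* B') (a : Idx n d → B) :
    map φ (cyP a) = cyP fun α => φ (a α) := by
  unfold cyP
  rw [map_add, map_pow, map_X, map_rename, map_pol]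

theorem cyc_map {B B' : Type*} [CommRing B] [CommRing B'] (φ : B →+* B') (a : Idx n d → B)
    (p : CI (n + 1) (fun _ : Fin 1 => d)) : φ (cyc a p) = cyc (fun α => φ (a α)) p := by
  unfold cyc cofs
  rw [← cyP_map, coeff_map]

/-- The Fermat polynomial. -/
noncomputable def fer (N d : ℕ) : MvPolynomial (Fin N) ℂ := 1 + ∑ b, X b ^ d

theorem fer_deg (N d : ℕ) : (fer N d).totalDegree ≤ d := by
  unfold fer
  refine (totalDegree_add _ _).trans (max_le (by rw [totalDegree_one]; exact Nat.zero_le _) ?_)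
  refine (totalDegree_finsetSum _ _).trans (Finset.sup_le fun b _ => ?_)
  exact (totalDegree_X_pow b d).le

theorem fer_coeff (hd : 1 ≤ d) {N : ℕ} (μ : Fin N →₀ ℕ) [Decidable (μ = 0 ∨ ∃ b, μ = Finsupp.single b d)] :
    coeff μ (fer N d) = if μ = 0 ∨ ∃ b, μ = Finsupp.single b d then 1 else 0 := by
  classical
  have h0 : ∀ b : Fin N, (0 : Fin N →₀ ℕ) ≠ Finsupp.single b d := by
    intro b h
    have h1 := DFunLike.congr_fun h b
    rw [Finsupp.single_eq_same, Finsupp.coe_zero, Pi.zero_apply] at h1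
    omega
  unfold fer
  rw [coeff_add, coeff_one, coeff_sum]
  by_cases h : μ = 0
  · subst h
    rw [if_pos rfl, if_pos (Or.inl rfl), Finset.sum_eq_zero, add_zero]
    intro b _
    rw [coeff_X_pow, if_neg (h0 b).symm]
  · rw [if_neg (Ne.symm h), zero_add]
    by_cases h2 : ∃ b, μ = Finsupp.single b d
    · obtain ⟨b, rfl⟩ := h2
      rw [if_pos (Or.inr ⟨b, rfl⟩), Finset.sum_eq_single b]
      · rw [coeff_X_pow, if_pos rfl]
      · intro b' _ hb
        rw [coeff_X_pow, if_neg]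
        intro h3
        have h4 := (Finsupp.single_left_inj (by omega : d ≠ 0)).1 h3
        exact hb h4
      · intro h3
        exact absurd (Finset.mem_univ _) h3
    · rw [if_neg (by rintro (h3 | h3); exacts [h h3, h2 h3])]
      refine Finset.sum_eq_zero fun b _ => ?_
      rw [coeff_X_pow, if_neg]
      intro h3
      exact h2 ⟨b, h3.symm⟩

theorem cyP_fer : cyP (cofs d (fer n d)) = fer (n + 1) d := by
  unfold cyP
  rw [pol_cofs (fer_deg n d)]
  unfold fer
  rw [Fin.sum_univ_castSucc, map_add, map_one, map_sum]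
  simp only [map_pow, rename_X]
  ring

theorem cyc_fer (hd : 1 ≤ d) (p : CI (n + 1) (fun _ : Fin 1 => d)) :
    cyc (cofs d (fer n d)) p = aF n d p := by
  classical
  unfold cyc
  rw [cyP_fer]
  unfold cofs
  rw [fer_coeff hd]
  unfold aF
  rfl

end Cyc

end Pool.Agent.H54L
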