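import Pool.Agent.Lib.H44K.S5
import Pool.Agent.Lib.H44K.G16
import Pool.Agent.Lib.H44K.G18

set_option autoImplicit false

/-!
H54L: comparison of a family of ideals with a special member, without regularity at the generic point.
-/

open MvPolynomial

namespace Pool.Agent.H54L

open Pool.Agent.H89T Pool.Agent.H67T Pool.Agent.H53U Pool.Agent.H53V Pool.Agent.H44K

section Ladder

variable {N k : ℕ} {K : Type*} [Field K]

/-- Multiplication by `g` modulo `I`. -/
noncomputable def gq (I : Ideal (MvPolynomial (HV N k) K)) (g : MvPolynomial (HV N k) K) :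
    MvPolynomial (HV N k) K →ₗ[K] MvPolynomial (HV N k) K ⧸ (I.restrictScalars K) :=
  (I.restrictScalars K).mkQ.comp (LinearMap.mulLeft K g)

theorem gq_ker (I : Ideal (MvPolynomial (HV N k) K)) (g f : MvPolynomial (HV N k) K) :
    gq I g f = 0 ↔ g * f ∈ I := by
  unfold gq
  rw [LinearMap.comp_apply, Submodule.mkQ_apply, Submodule.Quotient.mk_eq_zero]
  rfl

theorem ladder_aux {I : Ideal (MvPolynomial (HV N k) K)} (hI : HomI I)
    {g : MvPolynomial (HV N k) K} {e i : ℕ} (hg : BiH e i g) (A m : ℕ) :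
    hf (I ⊔ Ideal.span {g}) (e + A) (i + m) + Module.finrank K (ehc_V K N k A m) =
      hf I (e + A) (i + m) +
        Module.finrank K ↥(ehc_V K N k A m ⊓ LinearMap.ker (gq I g)) := by
  have hV := ehc_V_finite (K := K) (N := N) (k := k) A m
  have hP := ehc_P_finite (K := K) (N := N) (k := k) (I ⊔ Ideal.span {g}) (e + A) (i + m)
  have h1 := g16_rn (gq I g) (ehc_V K N k A m)
  have h2 := g16_rn (I.restrictScalars K).mkQ (ehc_P (I ⊔ Ideal.span {g}) (e + A) (i + m))
  have h3 := ehc_P_sup hI hg A m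
  have h4 : (ehc_P (I ⊔ Ideal.span {g}) (e + A) (i + m)).map (I.restrictScalars K).mkQ =
      (ehc_V K N k A m).map (gq I g) := by
    rw [h3, Submodule.map_sup]
    have h5 : (ehc_P I (e + A) (i + m)).map (I.restrictScalars K).mkQ = ⊥ := by
      rw [eq_bot_iff]
      rintro _ ⟨f, hf, rfl⟩
      have h8 : (I.restrictScalars K).mkQ f = 0 := by
        rw [Submodule.mkQ_apply, Submodule.Quotient.mk_eq_zero]
        exact (ehc_mem_P.1 hf).1
      rw [h8]
      exact Submodule.zero_mem _
    rw [h5, bot_sup_eq, gq, Submodule.map_comp]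
  have h5 : ehc_P (I ⊔ Ideal.span {g}) (e + A) (i + m) ⊓ LinearMap.ker (I.restrictScalars K).mkQ =
      ehc_P I (e + A) (i + m) := by
    rw [Submodule.ker_mkQ]
    ext f
    constructor
    · rintro ⟨hf1, hf2⟩
      exact ehc_mem_P.2 ⟨hf2, (ehc_mem_P.1 hf1).2⟩
    · intro hf
      have hf' := ehc_mem_P.1 hf
      exact ⟨ehc_mem_P.2 ⟨Submodule.mem_sup_left hf'.1, hf'.2⟩, hf'.1⟩
  rw [h4, h5] at h2
  have h6 := ehc_hf (I ⊔ Ideal.span {g}) (e + A) (i + m)
  have h7 := ehc_hf I (e + A) (i + m)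
  omega

theorem P_le_ker {I : Ideal (MvPolynomial (HV N k) K)} (g : MvPolynomial (HV N k) K) (A m : ℕ) :
    ehc_P I A m ≤ ehc_V K N k A m ⊓ LinearMap.ker (gq I g) := by
  intro f hf
  have hf' := ehc_mem_P.1 hf
  exact ⟨hf'.2, (gq_ker I g f).2 (I.mul_mem_left _ hf'.1)⟩

/-- The ladder inequality. -/
theorem ladder {I : Ideal (MvPolynomial (HV N k) K)} (hI : HomI I)
    {g : MvPolynomial (HV N k) K} {e i : ℕ} (hg : BiH e i g) (A m : ℕ) :
    hf I (e + A) (i + m) ≤ hf (I ⊔ Ideal.span {g}) (e + A) (i + m) + hf I A m := by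
  have hV := ehc_V_finite (K := K) (N := N) (k := k) A m
  have h1 := ladder_aux hI hg A m
  have h2 := Submodule.finrank_mono (P_le_ker (I := I) g A m)
  have h3 := ehc_hf I A m
  omega

/-- Equality in the ladder inequality gives regularity. -/
theorem ladder_eq {I : Ideal (MvPolynomial (HV N k) K)} (hI : HomI I)
    {g : MvPolynomial (HV N k) K} {e i : ℕ} (hg : BiH e i g) {A m : ℕ}
    (h : hf (I ⊔ Ideal.span {g}) (e + A) (i + m) + hf I A m ≤ hf I (e + A) (i + m))
    {f : MvPolynomial (HV N k) K} (hf1 : BiH A m f) (hf2 : g * f ∈ I) : f ∈ I := by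
  have hV := ehc_V_finite (K := K) (N := N) (k := k) A m
  have h1 := ladder_aux hI hg A m
  have h3 := ehc_hf I A m
  have h4 : Module.finrank K ↥(ehc_V K N k A m ⊓ LinearMap.ker (gq I g)) ≤
      Module.finrank K (ehc_P I A m) := by omega
  have h5 := Submodule.eq_of_le_of_finrank_le (P_le_ker (I := I) g A m) h4
  have h6 : f ∈ ehc_V K N k A m ⊓ LinearMap.ker (gq I g) := ⟨hf1, (gq_ker I g f).2 hf2⟩
  rw [← h5] at h6
  exact (ehc_mem_P.1 h6).1

/-- Regularity in large degree gives regularity up to torsion at the origin. -/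
theorem TR_of_large {I : Ideal (MvPolynomial (HV N k) K)} (hI : HomI I)
    {g : MvPolynomial (HV N k) K} {e i : ℕ} (hg : BiH e i g) {A₀ : ℕ}
    (h : ∀ A ≥ A₀, ∀ m f, BiH A m f → g * f ∈ I → f ∈ I) : TR I g := by
  classical
  intro f hf b
  refine ⟨A₀, ?_⟩
  rw [eha_sum (w := (hw : HV N k → ℕ × ℕ)) f, Finset.mul_sum]
  refine Ideal.sum_mem _ fun v _ => ?_
  have h1 := hI _ hf (e + v.1) (i + v.2)
  have h2 : ((e + v.1, i + v.2) : ℕ × ℕ) = (e, i) + v := rfl
  rw [h2, eha_comp_mul hg] at h1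
  have h3 : BiH v.1 v.2 (weightedHomogeneousComponent (hw : HV N k → ℕ × ℕ) v f) :=
    weightedHomogeneousComponent_isWeightedHomogeneous _ _
  refine h (v.1 + A₀) (by omega) v.2 _ (g16_xbi b A₀ h3) ?_
  have h4 : g * (X (xv b) ^ A₀ * weightedHomogeneousComponent (hw : HV N k → ℕ × ℕ) v f) =
      X (xv b) ^ A₀ * (g * weightedHomogeneousComponent (hw : HV N k → ℕ × ℕ) v f) := by ring
  rw [h4]
  exact I.mul_mem_left _ h1

end Ladder

section Semi

variable {N k : ℕ}

/-- Semicontinuity of the Hilbert function. -/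
theorem hf_semi {R K F : Type*} [CommRing R] [IsDomain R] [Field K] [Algebra R K]
    [IsFractionRing R K] [Field F] (φ : R →+* F) {T : Type} [Finite T]
    (g : T → MvPolynomial (HV N k) R) (g' : T → MvPolynomial (HV N k) F) (dg : T → ℕ × ℕ) (κ : T → ℕ)
    (hdg : ∀ t, BiH (dg t).1 (dg t).2 (g t))
    (hlow : ∀ t μ, vd μ < κ t → φ (coeff μ (g t)) = 0)
    (hg' : ∀ t μ, coeff μ (g' t) = if vd μ = κ t then φ (coeff μ (g t)) else 0) (A m : ℕ) :
    hf (Ideal.span (Set.range fun t => map (algebraMap R K) (g t))) A m ≤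
      hf (Ideal.span (Set.range g')) A m := by
  classical
  have hdegK : ∀ t, BiH (dg t).1 (dg t).2 (map (algebraMap R K) (g t)) := by
    intro t μ hμ
    refine hdg t ?_
    intro h0
    apply hμ
    rw [coeff_map, h0, map_zero]
  have hdegF : ∀ t, BiH (dg t).1 (dg t).2 (g' t) := by
    intro t μ hμ
    refine hdg t ?_
    intro h0
    apply hμ
    rw [hg' t μ, h0, map_zero, ite_self]
  obtain ⟨c, hc⟩ : ∃ c : Unit → Empty → MvPolynomial (HV N k) ℤ, ∀ q p, BiH 0 0 (c q p) :=
    ⟨fun _ p => p.elim, fun _ p => p.elim⟩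
  have h3 := finrank_fam (K := K) φ g g' dg κ hlow hg' c hc A m
  rw [span_fam (K := F) c g' dg hdegF 0 A m,
    span_fam (K := K) c (fun t => map (algebraMap R K) (g t)) dg hdegK 0 A m] at h3
  have h4F : (VP F N k Empty A m).map (Dm c) =
      (⊥ : Submodule F (Unit → MvPolynomial (HV N k) F)) := by
    rw [eq_bot_iff]
    rintro _ ⟨x, -, rfl⟩
    have hx : x = 0 := funext fun p => p.elim
    rw [hx, map_zero]
    exact Submodule.zero_mem _
  have h4K : (VP K N k Empty A m).map (Dm c) =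
      (⊥ : Submodule K (Unit → MvPolynomial (HV N k) K)) := by
    rw [eq_bot_iff]
    rintro _ ⟨x, -, rfl⟩
    have hx : x = 0 := funext fun p => p.elim
    rw [hx, map_zero]
    exact Submodule.zero_mem _
  rw [h4F, h4K, bot_sup_eq, bot_sup_eq, finrank_IP, finrank_IP, Fintype.card_unit, one_mul,
    one_mul, add_zero] at h3
  have h11 := ehc_V_finrank (K := K) (N := N) (k := k) A m
  have h12 := ehc_V_finrank (K := F) (N := N) (k := k) A m
  have h13 := ehc_hf (K := K) (Ideal.span (Set.range fun t => map (algebraMap R K) (g t))) A m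
  have h14 := ehc_hf (K := F) (Ideal.span (Set.range g')) A m
  have h15 : Module.finrank F (ehc_P (Ideal.span (Set.range g')) A m) ≤
      Module.finrank K (ehc_P (Ideal.span (Set.range fun t => map (algebraMap R K) (g t))) A m) := h3
  omega

/-- Semicontinuity for a subset of the generators. -/
theorem hf_semi_on {R K F : Type*} [CommRing R] [IsDomain R] [Field K] [Algebra R K]
    [IsFractionRing R K] [Field F] (φ : R →+* F) {T : Type} [Finite T]
    (g : T → MvPolynomial (HV N k) R) (g' : T → MvPolynomial (HV N k) F) (dg : T → ℕ × ℕ) (κ : T → ℕ)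
    (hdg : ∀ t, BiH (dg t).1 (dg t).2 (g t))
    (hlow : ∀ t μ, vd μ < κ t → φ (coeff μ (g t)) = 0)
    (hg' : ∀ t μ, coeff μ (g' t) = if vd μ = κ t then φ (coeff μ (g t)) else 0) (S : Set T)
    (A m : ℕ) :
    hf (Ideal.span ((fun t => map (algebraMap R K) (g t)) '' S)) A m ≤
      hf (Ideal.span (g' '' S)) A m := by
  have h := hf_semi (K := K) φ (T := S) (fun t => g t.1) (fun t => g' t.1) (fun t => dg t.1)
    (fun t => κ t.1) (fun t => hdg t.1) (fun t => hlow t.1) (fun t => hg' t.1) A m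
  have e1 : (Set.range fun t : S => map (algebraMap R K) (g t.1)) =
      (fun t => map (algebraMap R K) (g t)) '' S := by
    rw [Set.image_eq_range]
  have e2 : (Set.range fun t : S => g' t.1) = g' '' S := by
    rw [Set.image_eq_range]
  rw [e1, e2] at h
  exact h

/-- One step of the comparison of the Hilbert functions. -/
theorem stage {R K F : Type*} [CommRing R] [IsDomain R] [Field K] [Algebra R K]
    [IsFractionRing R K] [Field F] (φ : R →+* F) {T : Type} [Finite T]
    (g : T → MvPolynomial (HV N k) R) (g' : T → MvPolynomial (HV N k) F) (dg : T → ℕ × ℕ) (κ : T → ℕ)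
    (hdg : ∀ t, BiH (dg t).1 (dg t).2 (g t))
    (hlow : ∀ t μ, vd μ < κ t → φ (coeff μ (g t)) = 0)
    (hg' : ∀ t μ, coeff μ (g' t) = if vd μ = κ t then φ (coeff μ (g t)) else 0) (S : Set T) (t : T)
    (hreg : TR (Ideal.span (g' '' S)) (g' t))
    (ih : ∃ A₁ : ℕ, ∀ A ≥ A₁, ∀ m,
      hf (Ideal.span ((fun t => map (algebraMap R K) (g t)) '' S)) A m =
        hf (Ideal.span (g' '' S)) A m) :
    ∃ A₁ : ℕ, ∀ A ≥ A₁, ∀ m,
      hf (Ideal.span ((fun t => map (algebraMap R K) (g t)) '' insert t S)) A m =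
        hf (Ideal.span (g' '' insert t S)) A m := by
  have hdegK : ∀ t, BiH (dg t).1 (dg t).2 (map (algebraMap R K) (g t)) := by
    intro t μ hμ
    refine hdg t ?_
    intro h0
    apply hμ
    rw [coeff_map, h0, map_zero]
  have hdegF : ∀ t, BiH (dg t).1 (dg t).2 (g' t) := by
    intro t μ hμ
    refine hdg t ?_
    intro h0
    apply hμ
    rw [hg' t μ, h0, map_zero, ite_self]
  have hIK : HomI (Ideal.span ((fun t => map (algebraMap R K) (g t)) '' S)) :=
    eha_homI_span (by
      rintro _ ⟨t, _, rfl⟩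
      exact ⟨_, _, hdegK t⟩)
  have hIF : HomI (Ideal.span (g' '' S)) :=
    eha_homI_span (by
      rintro _ ⟨t, _, rfl⟩
      exact ⟨_, _, hdegF t⟩)
  have e1 : Ideal.span ((fun t => map (algebraMap R K) (g t)) '' insert t S) =
      Ideal.span ((fun t => map (algebraMap R K) (g t)) '' S) ⊔
        Ideal.span {map (algebraMap R K) (g t)} := by
    rw [Set.image_insert_eq, Ideal.span_insert, sup_comm]
  have e2 : Ideal.span (g' '' insert t S) =
      Ideal.span (g' '' S) ⊔ Ideal.span {g' t} := by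
    rw [Set.image_insert_eq, Ideal.span_insert, sup_comm]
  obtain ⟨A₁, hA₁⟩ := ih
  obtain ⟨A₀, hA₀⟩ := eha_torsion hIF (hdegF t) hreg
  refine ⟨(dg t).1 + A₁ + A₀, fun A hA m => ?_⟩
  have hle := hf_semi_on (K := K) φ g g' dg κ hdg hlow hg' (insert t S) A m
  refine le_antisymm hle ?_
  rw [e1, e2]
  by_cases hm : m < (dg t).2
  · rw [ehc_hf_small hIK (hdegK t) (Or.inr hm), ehc_hf_small hIF (hdegF t) (Or.inr hm),
      hA₁ A (by omega) m]
  · obtain ⟨m', rfl⟩ := Nat.exists_eq_add_of_le (not_lt.1 hm)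
    obtain ⟨A', rfl⟩ := Nat.exists_eq_add_of_le (show (dg t).1 ≤ A by omega)
    have h1 := ladder hIK (hdegK t) A' m'
    have h2 := ehc_hf_sup hIF (hdegF t) (A := A') (m := m') (hA₀ A' (by omega) m')
    have h3 := hA₁ ((dg t).1 + A') (by omega) ((dg t).2 + m')
    have h4 := hA₁ A' (by omega) m'
    omega

/-- The inequality for `kap`, for a family and a special member. -/
theorem kap_gen {R K F : Type} [CommRing R] [IsDomain R] [Field K] [Algebra R K]
    [IsFractionRing R K] [Field F] (φ : R →+* F) {T : Type} [Finite T]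
    (g : T → MvPolynomial (HV N k) R) (g' : T → MvPolynomial (HV N k) F) (dg : T → ℕ × ℕ) (κ : T → ℕ)
    (hdg : ∀ t, BiH (dg t).1 (dg t).2 (g t))
    (hlow : ∀ t μ, vd μ < κ t → φ (coeff μ (g t)) = 0)
    (hg' : ∀ t μ, coeff μ (g' t) = if vd μ = κ t then φ (coeff μ (g t)) else 0)
    {A s m : ℕ}
    (h1 : hf (Ideal.span (Set.range fun t => map (algebraMap R K) (g t))) (A + s) m =
      hf (Ideal.span (Set.range g')) (A + s) m)
    (h2 : hf (Ideal.span (Set.range fun t => map (algebraMap R K) (g t))) (A + s + s) m =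
      hf (Ideal.span (Set.range g')) (A + s + s) m) {B : ℕ}
    (h3 : Module.finrank F (kap (c2 N k s) (Ideal.span (Set.range g')) (A + s) m) ≤
      B + Module.finrank F ↥((VP F N k (Option (Fin N)) A m).map (Dm (c1 N k s)) ⊔
        IP (Ideal.span (Set.range g')) (Option (Fin N) × Option (Fin N)) (A + s) m)) :
    Module.finrank F (kap (c1 N k s) (Ideal.span (Set.range g')) A m) ≤
      Module.finrank K (kap (c1 N k s)
        (Ideal.span (Set.range fun t => map (algebraMap R K) (g t))) A m) + B := by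
  obtain ⟨I, hI⟩ : ∃ I, I = Ideal.span (Set.range fun t => map (algebraMap R K) (g t)) := ⟨_, rfl⟩
  obtain ⟨I', hI'⟩ : ∃ I', I' = Ideal.span (Set.range g') := ⟨_, rfl⟩
  have m3 := semi (R := R) (K := K) (F := F) φ g g' dg κ hdg hlow hg' (c2 N k s) (c2_bi N k s)
    (A + s) m h2
  rw [← hI, ← hI'] at h1 m3
  rw [← hI'] at h3
  rw [← hI, ← hI']
  have k1 := kap_formula (c1 N k s) (c1_bi N k s) I A m
  have k2 := kap_formula (c1 N k s) (c1_bi N k s) I' A m
  have v1 := finrank_VP K N k (Option (Fin N)) A m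
  have v2 := finrank_VP F N k (Option (Fin N)) A m
  have v3 := ehc_V_finrank (K := K) (N := N) (k := k) A m
  have v4 := ehc_V_finrank (K := F) (N := N) (k := k) A m
  have v5 : Module.finrank K (VP K N k (Option (Fin N)) A m) =
      Module.finrank F (VP F N k (Option (Fin N)) A m) := by
    rw [v1, v2]
    exact congrArg _ (v3.trans v4.symm)
  have i1 := finrank_IP I (Option (Fin N) × Option (Fin N)) (A + s) m
  have i2 := finrank_IP I' (Option (Fin N) × Option (Fin N)) (A + s) m
  have i3 := ehc_hf I (A + s) m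
  have i4 := ehc_hf I' (A + s) m
  have i6 := ehc_V_finrank (K := K) (N := N) (k := k) (A + s) m
  have i7 := ehc_V_finrank (K := F) (N := N) (k := k) (A + s) m
  have i8 : Module.finrank K (ehc_P I (A + s) m) = Module.finrank F (ehc_P I' (A + s) m) := by
    omega
  have i9 : Module.finrank K (IP I (Option (Fin N) × Option (Fin N)) (A + s) m) =
      Module.finrank F (IP I' (Option (Fin N) × Option (Fin N)) (A + s) m) := by
    rw [i1, i2]
    exact congrArg _ i8
  have fk := g16_kap_fin (c2 N k s) I (A + s) m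
  have m2 := Submodule.finrank_mono (sup_le_kap I A s m)
  omega

end Semi

end Pool.Agent.H54L
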