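import Pool.Agent.Lib.H44K.G19

set_option autoImplicit false

/-!
H54L: many sections modulo a homogeneous ideal give many jet differentials in the chart `x_0 = 1` (general form of
H44K/G19).
-/

open MvPolynomial

namespace Pool.Agent.H54L

open Pool.Agent.H89T Pool.Agent.H67T Pool.Agent.H53U Pool.Agent.H53V Pool.Agent.H44K

theorem dim_of_kap {K : Type} [Field K] {N k : ℕ} {I : Ideal (MvPolynomial (HV N k) K)}
    (hHom : HomI I) (hTR : TR I (X none)) :
    ∃ A₂ : ℕ, ∀ A ≥ A₂, ∀ m s R, 1 ≤ s →
      (N + 1) * Module.finrank K ↥(I.restrictScalars K ⊓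
        weightedHomogeneousSubmodule K (hw : HV N k → ℕ × ℕ) (A, m)) + R ≤
        Module.finrank K (kap (c1 N k s) I A m) →
      ∀ l : Fin N → K, ∃ P Q : Fin R → MvPolynomial (JV N k) K,
        (∀ i, BiK A m (P i)) ∧ (∀ i, BiK A m (Q i)) ∧
        (∀ i, linK k l ^ s * P i - Q i ∈ I.map (dhom : _ →ₐ[K] MvPolynomial (JV N k) K)) ∧
        ∀ w : Fin R → K, ∑ i, C (w i) * P i ∈ I.map (dhom : _ →ₐ[K] MvPolynomial (JV N k) K) →
          w = 0 := by
  obtain ⟨A₀, hA₀⟩ := exists_E12 hHom
  obtain ⟨A₁, hA₁⟩ := chart hHom hTR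
  obtain ⟨A₃, hA₃⟩ := torsion hHom (g19_X none) hTR
  refine ⟨A₀ + A₁ + A₃, fun A hA m s R hs hR l => ?_⟩
  have hVf := ehc_V_finite (K := K) (N := N) (k := k) A m
  have hVPf : FiniteDimensional K (VP K N k (Option (Fin N)) A m) :=
    s3_finite _ (Option (Fin N))
  have hle : kap (c1 N k s) I A m ≤ VP K N k (Option (Fin N)) A m :=
    fun h hh p _ => hh.1 p
  have hfin : FiniteDimensional K (kap (c1 N k s) I A m) := Submodule.finiteDimensional_of_le hle
  have hI : IP I (Option (Fin N)) A m ≤ kap (c1 N k s) I A m := by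
    intro h hh
    refine ⟨fun p => (hh p (Set.mem_univ p)).2, fun q => ?_⟩
    exact Ideal.sum_mem _ fun p _ => Ideal.mul_mem_left _ _ (hh p (Set.mem_univ p)).1
  have hcard : Fintype.card (Option (Fin N)) = N + 1 := by
    rw [Fintype.card_option, Fintype.card_fin]
  obtain ⟨g, hg, hind⟩ := exists_indep_mod (kap (c1 N k s) I A m)
    (IP I (Option (Fin N)) A m) hI (R := R) (by
      rw [finrank_IP, hcard]
      exact hR)
  have hgB : ∀ i b, BiH A m (g i b) := fun i b => (hg i).1 b
  have hgI : ∀ i a b, X (xv a) ^ s * g i b - X (xv b) ^ s * g i a ∈ I := by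
    intro i a b
    rw [← g19_c1]
    exact (hg i).2 (a, b)
  -- the linear form
  obtain ⟨L, hL⟩ : ∃ L : MvPolynomial (HV N k) K,
      L = ∑ b : Fin N, C (l b) * X (xv (some b)) := ⟨_, rfl⟩
  have hLB : BiH 1 0 L := by
    rw [hL]
    exact g19_sum _ _ fun b _ => g19_X (some b)
  have hLd : dhom L = linK k l := by
    rw [hL, map_sum]
    unfold linK
    refine Finset.sum_congr rfl fun b _ => ?_
    rw [map_mul]
    congr 1
    · unfold dhom
      rw [← algebraMap_eq, AlgHom.commutes, algebraMap_eq]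
    · unfold dhom
      rw [aeval_X]
      rfl
  have hE := (hA₀ A (by omega) (fun _ => s) (fun _ => hs)).1
  have hσ : ∀ i, ∃ σ, BiH A m σ ∧ ∀ b, L ^ s * g i b - X (xv b) ^ s * σ ∈ I := by
    intro i
    refine hE m (fun b => L ^ s * g i b) (fun b => g19_pow hLB (hgB i b) s) fun a b => ?_
    have h1 : X (xv a) ^ s * (L ^ s * g i b) - X (xv b) ^ s * (L ^ s * g i a) =
        L ^ s * (X (xv a) ^ s * g i b - X (xv b) ^ s * g i a) := by ring
    rw [h1]
    exact Ideal.mul_mem_left _ _ (hgI i a b)
  choose σ hσB hσI using hσ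
  refine ⟨fun i => dhom (g i none), fun i => dhom (σ i), fun i => dhom_bi (hgB i none),
    fun i => dhom_bi (hσB i), fun i => ?_, fun w hw => ?_⟩
  · have h1 := Ideal.mem_map_of_mem (dhom : _ →ₐ[K] MvPolynomial (JV N k) K) (hσI i none)
    rw [map_sub, map_mul, map_mul, map_pow, map_pow, hLd] at h1
    have h2 : dhom (X (xv none) : MvPolynomial (HV N k) K) = 1 := by
      unfold dhom
      rw [aeval_X]
      rfl
    rw [h2, one_pow, one_mul] at h1
    exact h1
  · have hC : ∀ (c : K), dhom (C c : MvPolynomial (HV N k) K) = C c := by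
      intro c
      unfold dhom
      rw [← algebraMap_eq, AlgHom.commutes, algebraMap_eq]
    have hf0 : ∑ i, C (w i) * g i none ∈ I := by
      refine hA₁ A (by omega) m _ (g19_sum _ _ fun i _ => hgB i none) ?_
      rw [map_sum]
      simp only [map_mul, hC]
      exact hw
    apply hind w
    intro b _
    have h3 : (∑ i, w i • g i) b = ∑ i, C (w i) * g i b := by
      rw [Finset.sum_apply]
      exact Finset.sum_congr rfl fun i _ => by rw [Pi.smul_apply, smul_eq_C_mul]
    show (∑ i, w i • g i) b ∈ _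
    rw [h3]
    have hB := g19_sum (Finset.univ : Finset (Fin R)) w (A := A) (m := m)
      (f := fun i => g i b) fun i _ => hgB i b
    refine ⟨?_, hB⟩
    refine g19_tors hA₃ (by omega : A₃ ≤ A) hB s ?_
    have h4 : X none ^ s * ∑ i, C (w i) * g i b =
        ∑ i, C (w i) * (X (xv none) ^ s * g i b - X (xv b) ^ s * g i none) +
          X (xv b) ^ s * ∑ i, C (w i) * g i none := by
      rw [Finset.mul_sum, Finset.mul_sum, ← Finset.sum_add_distrib]
      refine Finset.sum_congr rfl fun i _ => ?_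
      show X none ^ s * (C (w i) * g i b) = C (w i) * (X none ^ s * g i b -
        X (xv b) ^ s * g i none) + X (xv b) ^ s * (C (w i) * g i none)
      ring
    rw [h4]
    refine Ideal.add_mem _ (Ideal.sum_mem _ fun i _ => ?_) (Ideal.mul_mem_left _ _ hf0)
    exact Ideal.mul_mem_left _ _ (hgI i none b)

/-- The dimension of a piece of an ideal from the Hilbert function. -/
theorem finrank_piece {K F : Type} [Field K] [Field F] {N k : ℕ}
    {I : Ideal (MvPolynomial (HV N k) K)} {I' : Ideal (MvPolynomial (HV N k) F)} {A m : ℕ}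
    (h : hf I A m = hf I' A m) :
    Module.finrank K ↥(I.restrictScalars K ⊓
        weightedHomogeneousSubmodule K (hw : HV N k → ℕ × ℕ) (A, m)) =
      Module.finrank F ↥(I'.restrictScalars F ⊓
        weightedHomogeneousSubmodule F (hw : HV N k → ℕ × ℕ) (A, m)) := by
  have h1 := ehc_hf I A m
  have h2 := ehc_hf I' A m
  have h3 := ehc_V_finrank (K := K) (N := N) (k := k) A m
  have h4 := ehc_V_finrank (K := F) (N := N) (k := k) A m
  have h5 : Module.finrank K (ehc_P I A m) = Module.finrank F (ehc_P I' A m) := by omega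
  exact h5

end Pool.Agent.H54L
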