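import Pool.Agent.Lib.H54L.G1

set_option autoImplicit false

/-!
H54L: regularity of the variables at the generic point from the special point.
-/

open MvPolynomial

namespace Pool.Agent.H54L

open Pool.Agent.H89T Pool.Agent.H67T Pool.Agent.H53U Pool.Agent.H53V Pool.Agent.H44K

variable {N k : ℕ}

theorem g3_vd_X (b : Option (Fin N)) (μ : HV N k →₀ ℕ) {B : Type*} [CommRing B]
    (h : coeff μ (X (xv b) : MvPolynomial (HV N k) B) ≠ 0) : vd μ = 0 := by
  classical
  rw [coeff_X'] at h
  split_ifs at h with h1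
  · rw [← h1]
    unfold vd
    refine Finset.sum_eq_zero fun p _ => ?_
    rw [Finsupp.single_apply, if_neg]
    intro h2
    cases b with
    | none => exact absurd h2 (by simp [xv])
    | some b =>
      simp only [xv, Option.map_some, Option.some.injEq, Prod.mk.injEq] at h2
      exact absurd h2.2 (Fin.succ_ne_zero _).symm
  · exact absurd rfl h

theorem TR_transfer {R K F : Type} [CommRing R] [IsDomain R] [Field K] [Algebra R K]
    [IsFractionRing R K] [Field F] (φ : R →+* F) {T : Type} [Finite T]
    (g : T → MvPolynomial (HV N k) R) (g' : T → MvPolynomial (HV N k) F) (dg : T → ℕ × ℕ) (κ : T → ℕ)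
    (hdg : ∀ t, BiH (dg t).1 (dg t).2 (g t))
    (hlow : ∀ t μ, vd μ < κ t → φ (coeff μ (g t)) = 0)
    (hg' : ∀ t μ, coeff μ (g' t) = if vd μ = κ t then φ (coeff μ (g t)) else 0)
    (h : ∃ A₁ : ℕ, ∀ A ≥ A₁, ∀ m,
      hf (Ideal.span (Set.range fun t => map (algebraMap R K) (g t))) A m =
        hf (Ideal.span (Set.range g')) A m) (b : Option (Fin N))
    (hb : TR (Ideal.span (Set.range g')) (X (xv b))) :
    TR (Ideal.span (Set.range fun t => map (algebraMap R K) (g t))) (X (xv b)) := by
  classical
  obtain ⟨gx, hgx⟩ : ∃ gx : Option T → MvPolynomial (HV N k) R,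
      gx = fun t => t.elim (X (xv b)) g := ⟨_, rfl⟩
  obtain ⟨gx', hgx'⟩ : ∃ gx' : Option T → MvPolynomial (HV N k) F,
      gx' = fun t => t.elim (X (xv b)) g' := ⟨_, rfl⟩
  have hX : ∀ (B : Type) [CommRing B], BiH 1 0 (X (xv b) : MvPolynomial (HV N k) B) := by
    intro B _
    have h1 := isWeightedHomogeneous_X B (hw : HV N k → ℕ × ℕ) (xv b)
    have h2 : (hw (xv b : HV N k) : ℕ × ℕ) = (1, 0) := by
      cases b <;> simp [xv, hw]
    rw [h2] at h1
    exact h1
  have hdegK : ∀ t, BiH (dg t).1 (dg t).2 (map (algebraMap R K) (g t)) := by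
    intro t μ hμ
    refine hdg t ?_
    intro h0
    apply hμ
    rw [coeff_map, h0, map_zero]
  have hdegF : ∀ t, BiH (dg t).1 (dg t).2 (g' t) := by
    intro t μ hμ
    refine hdg t ?_
    intro h0
    apply hμ
    rw [hg' t μ, h0, map_zero, ite_self]
  have hIK : HomI (Ideal.span (Set.range fun t => map (algebraMap R K) (g t))) :=
    eha_homI_span (by
      rintro _ ⟨t, rfl⟩
      exact ⟨_, _, hdegK t⟩)
  have hIF : HomI (Ideal.span (Set.range g')) :=
    eha_homI_span (by
      rintro _ ⟨t, rfl⟩
      exact ⟨_, _, hdegF t⟩)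
  have hsemi := hf_semi (K := K) φ gx gx' (fun t => t.elim (1, 0) dg) (fun t => t.elim 0 κ)
    (by
      rintro (_ | t)
      · rw [hgx]
        exact hX R
      · rw [hgx]
        exact hdg t)
    (by
      rintro (_ | t) μ hμ
      · exact absurd hμ (Nat.not_lt_zero _)
      · rw [hgx]
        exact hlow t μ hμ)
    (by
      rintro (_ | t) μ
      · rw [hgx, hgx']
        show coeff μ (X (xv b) : MvPolynomial (HV N k) F) = if vd μ = 0 then
          φ (coeff μ (X (xv b) : MvPolynomial (HV N k) R)) else 0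
        split_ifs with h1
        · rw [coeff_X', coeff_X']
          split_ifs
          · rw [map_one]
          · rw [map_zero]
        · by_contra h2
          exact h1 (g3_vd_X b μ h2)
      · rw [hgx, hgx']
        exact hg' t μ)
  have e1 : Ideal.span (Set.range fun t => map (algebraMap R K) (gx t)) =
      Ideal.span (Set.range fun t => map (algebraMap R K) (g t)) ⊔ Ideal.span {X (xv b)} := by
    rw [← Ideal.span_union]
    congr 1
    ext y
    constructor
    · rintro ⟨_ | t, rfl⟩
      · right
        show map (algebraMap R K) (gx none) = X (xv b)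
        rw [hgx]
        exact map_X _ _
      · left
        refine ⟨t, ?_⟩
        show map (algebraMap R K) (g t) = map (algebraMap R K) (gx (some t))
        rw [hgx]
        rfl
    · rintro (⟨t, rfl⟩ | hy)
      · refine ⟨some t, ?_⟩
        show map (algebraMap R K) (gx (some t)) = map (algebraMap R K) (g t)
        rw [hgx]
        rfl
      · refine ⟨none, ?_⟩
        rw [Set.mem_singleton_iff.1 hy]
        show map (algebraMap R K) (gx none) = X (xv b)
        rw [hgx]
        exact map_X _ _
  have e2 : Ideal.span (Set.range gx') = Ideal.span (Set.range g') ⊔ Ideal.span {X (xv b)} := by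
    rw [← Ideal.span_union]
    congr 1
    rw [hgx']
    ext y
    constructor
    · rintro ⟨_ | t, rfl⟩
      · exact Or.inr rfl
      · exact Or.inl ⟨t, rfl⟩
    · rintro (⟨t, rfl⟩ | hy)
      · exact ⟨some t, rfl⟩
      · exact ⟨none, (Set.mem_singleton_iff.1 hy).symm⟩
  obtain ⟨A₁, hA₁⟩ := h
  obtain ⟨A₀, hA₀⟩ := eha_torsion hIF (hX F) hb
  refine TR_of_large (A₀ := A₀ + A₁) hIK (hX K) fun A hA m f hf1 hf2 => ?_
  refine ladder_eq hIK (hX K) (A := A) (m := m) ?_ hf1 hf2
  have h1 := ehc_hf_sup hIF (hX F) (A := A) (m := m) (hA₀ A (by omega) m)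
  have h2 := hsemi (1 + A) (0 + m)
  rw [e1, e2] at h2
  have h3 := hA₁ (1 + A) (by omega) (0 + m)
  have h4 := hA₁ A (by omega) m
  omega

end Pool.Agent.H54L
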